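import Pool.Agent.Q201.PR.Third

/-!
# MP_aa7c57_an: boundedness for `x_{n+1} = 1 / (C_n x_{n-1} + x_{n-2})` with periodic coefficients

All positive solutions are bounded if and only if the `k` equations for a positive solution of
period `k` have a positive solution; otherwise all positive solutions are unbounded. The equations
are solved explicitly for `k = 2, 3, 4, 5`.
-/

set_option autoImplicit false

namespace Pool.Agent.Results.MP_aa7c57_an.BoundednessCriterion

/-- `k` is the prime (least) period of the coefficients. -/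
def IsPrimePeriod (C : ℕ → ℝ) (k : ℕ) : Prop :=
  0 < k ∧ (∀ n, C (n + k) = C n) ∧ ∀ p, 0 < p → (∀ n, C (n + p) = C n) → k ≤ p

/-- `x` is a positive solution of `x_{n+1} = 1 / (C_n x_{n-1} + x_{n-2})`; the index is shifted by
two, so `x 0, x 1, x 2` stand for `x_{-2}, x_{-1}, x_0`. -/
def IsPositiveSolution (C : ℕ → ℝ) (x : ℕ → ℝ) : Prop :=
  0 < x 0 ∧ 0 < x 1 ∧ 0 < x 2 ∧ ∀ n, x (n + 3) = 1 / (C n * x (n + 1) + x n)

/-- The `k` equations `w_{n+3} (C_n w_{n+1} + w_n) = 1`, `0 ≤ n < k`, where the indices of `w` are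
read modulo `k`, have a solution `w_0, ..., w_{k-1} > 0`. -/
def Solvable (k : ℕ) (C : ℕ → ℝ) : Prop :=
  ∃ w : ℕ → ℝ, (∀ n, 0 < w n) ∧ (∀ n, w (n + k) = w n) ∧
    ∀ n < k, w (n + 3) * (C n * w (n + 1) + w n) = 1

/-- An escape pattern: sets `P`, `Q` of residues modulo `k`, `P` nonempty, disjoint, such that a place
`n + 3` of `P` uses only places of `Q` and a place `n + 3` of `Q` uses a place of `P`; the place
`n + 3` uses `n`, and `n + 1` if `C_n > 0`. -/
def Escape (k : ℕ) (C : ℕ → ℝ) : Prop :=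
  ∃ P Q : ℕ → Prop, (∀ n, P (n + k) ↔ P n) ∧ (∀ n, Q (n + k) ↔ Q n) ∧ (∃ n, P n) ∧
    (∀ n, P n → ¬ Q n) ∧ (∀ n, P (n + 3) → Q n ∧ (0 < C n → Q (n + 1))) ∧
    ∀ n, Q (n + 3) → P n ∨ (0 < C n ∧ P (n + 1))

/-- **All positive solutions are bounded if and only if the `k` equations are solvable in positive
numbers; otherwise all positive solutions are unbounded.** The equations are solvable if there is no
escape pattern, and solvability is made explicit for `k = 2, 3, 4, 5`. -/
theorem result (k : ℕ) (hk : 2 ≤ k) (C : ℕ → ℝ) (hC : ∀ n, 0 ≤ C n) (hper : IsPrimePeriod C k) :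
    ((∀ x, IsPositiveSolution C x → BddAbove (Set.range x)) ↔ Solvable k C) ∧
    (¬ Solvable k C → ∀ x, IsPositiveSolution C x → ¬ BddAbove (Set.range x)) ∧
    (¬ Escape k C → Solvable k C) ∧
    (k = 2 → (Solvable k C ↔ 0 < C 0 ∧ 0 < C 1)) ∧
    (k = 3 → Solvable k C) ∧
    (k = 4 → (Solvable k C ↔ (0 < C 0 ∨ 0 < C 2) ∧ (0 < C 1 ∨ 0 < C 3))) ∧
    (k = 5 → (Solvable k C ↔ ∀ i < 5, 0 < 1 - C i + C i * C (i + 3) - C i * C (i + 3) * C (i + 1) +
      C i * C (i + 3) * C (i + 1) * C (i + 4))) := by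
  obtain ⟨hk0, hp, hmin⟩ := hper
  have hne : ∃ n, C n ≠ 0 := by
    by_contra hcon
    push Not at hcon
    have := hmin 1 one_pos (fun n => by rw [hcon, hcon])
    omega
  refine ⟨(Q201.PR.third_main hk0 hC hp).1, (Q201.PR.third_main hk0 hC hp).2,
    fun h => Q201.PR.perG_of_no_escape (c := 3) (b := 1) hk0 hC hp h, ?_, ?_, ?_, ?_⟩
  · rintro rfl
    refine Q201.PR.third_two hC hp fun h01 => ?_
    have h3 : ∀ n, C (n + 1) = C n := by
      intro n
      rw [Q201.PR.per_mod hp (Nat.mod_modEq n 2).symm,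
        Q201.PR.per_mod hp (Nat.mod_modEq (n + 1) 2).symm]
      rcases Nat.mod_two_eq_zero_or_one n with h | h
      · rw [h, show (n + 1) % 2 = 1 by omega, h01]
      · rw [h, show (n + 1) % 2 = 0 by omega, h01]
    have := hmin 1 one_pos h3
    omega
  · rintro rfl
    exact Q201.PR.third_three hC hp
  · rintro rfl
    exact Q201.PR.third_four hC hp hne
  · rintro rfl
    exact Q201.PR.third_five hC hp

end Pool.Agent.Results.MP_aa7c57_an.BoundednessCriterion
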